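import Pool.Agent.Q115.EPMain

namespace Pool.Agent.Results.MP_43a9c1_co.SparseEdgePancyclic

open SimpleGraph

/-- `G` (a graph on `n` vertices) is edge-pancyclic: for every `k` with `3 ≤ k ≤ n`, every
edge of `G` is an edge of some cycle of length `k` of `G`. -/
def EdgePancyclic {n : ℕ} (G : SimpleGraph (Fin n)) : Prop :=
  ∀ e ∈ G.edgeSet, ∀ k, 3 ≤ k → k ≤ n →
    ∃ (v : Fin n) (w : G.Walk v v), w.IsCycle ∧ w.length = k ∧ e ∈ w.edges

/-- There is `ε > 0` (namely `1 / 91`) such that for infinitely many `n` there is an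
edge-pancyclic graph with at least one edge on `n` vertices which has fewer than
`(2 - ε) n` edges. -/
theorem result : ∃ ε : ℝ, 0 < ε ∧ ∀ n₀ : ℕ, ∃ n : ℕ, n₀ ≤ n ∧ ∃ G : SimpleGraph (Fin n),
    EdgePancyclic G ∧ G.edgeSet.Nonempty ∧ (G.edgeSet.ncard : ℝ) < (2 - ε) * n := by
  refine ⟨1 / 91, by norm_num, fun n₀ => ?_⟩
  obtain ⟨n, hn, G, hG, hne, hc⟩ := Pool.Agent.Q115.EP.sparse n₀
  refine ⟨n, hn, G, hG, hne, ?_⟩
  have h : (91 : ℝ) * G.edgeSet.ncard + 51 + n + 91 ≤ 182 * n := by exact_mod_cast hc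
  linarith

end Pool.Agent.Results.MP_43a9c1_co.SparseEdgePancyclic
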